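import Pool.Agent.Helper67.SPX.Cone

set_option autoImplicit false

open MeasureTheory Filter Topology Set
open scoped InnerProductSpace ENNReal

namespace Pool.Agent.Helper67.SPX.G2

open Pool.Agent.Helper64.SPX Pool.Agent.Helper67.SPX

variable {ι : Type} [Fintype ι]

/-- prescribed inner products with two linearly independent vectors: one vector -/
theorem exists_one {u1 u2 : E ι} (h : LinearIndependent ℝ ![u1, u2]) :
    ∃ x, ⟪u1, x⟫_ℝ = 1 ∧ ⟪u2, x⟫_ℝ = 0 := by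
  set v : E ι := ⟪u2, u2⟫_ℝ • u1 - ⟪u1, u2⟫_ℝ • u2 with hv
  have hu2 : u2 ≠ 0 := by
    have := h.ne_zero 1
    simpa using this
  have h22 : 0 < ⟪u2, u2⟫_ℝ := real_inner_self_pos.2 hu2
  have hv0 : v ≠ 0 := by
    intro h0
    rw [LinearIndependent.pair_iff] at h
    have := h (⟪u2, u2⟫_ℝ) (-⟪u1, u2⟫_ℝ) (by rw [neg_smul, ← sub_eq_add_neg]; exact h0)
    exact h22.ne' this.1
  have h2 : ⟪u2, v⟫_ℝ = 0 := by
    rw [hv, inner_sub_right, inner_smul_right, inner_smul_right, real_inner_comm u1 u2]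
    ring
  have h1 : ⟪v, v⟫_ℝ = ⟪u2, u2⟫_ℝ * ⟪u1, v⟫_ℝ := by
    conv_lhs => rw [hv]
    rw [← hv, inner_sub_left, inner_smul_left, inner_smul_left, h2]
    simp
  have h3 : 0 < ⟪v, v⟫_ℝ := real_inner_self_pos.2 hv0
  have h4 : ⟪u1, v⟫_ℝ ≠ 0 := by
    intro h0; rw [h0, mul_zero] at h1; exact h3.ne' h1
  refine ⟨(⟪u1, v⟫_ℝ)⁻¹ • v, ?_, ?_⟩
  · rw [inner_smul_right]; field_simp
  · rw [inner_smul_right, h2, mul_zero]

theorem exists_two {u1 u2 : E ι} (h : LinearIndependent ℝ ![u1, u2]) (r1 r2 : ℝ) :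
    ∃ x, ⟪u1, x⟫_ℝ = r1 ∧ ⟪u2, x⟫_ℝ = r2 := by
  obtain ⟨x, hx1, hx2⟩ := exists_one h
  have h' : LinearIndependent ℝ ![u2, u1] := by
    rw [LinearIndependent.pair_iff] at h ⊢
    intro s t hst
    have := h t s (by rw [add_comm]; exact hst)
    exact ⟨this.2, this.1⟩
  obtain ⟨y, hy1, hy2⟩ := exists_one h'
  refine ⟨r1 • x + r2 • y, ?_, ?_⟩
  · rw [inner_add_right, inner_smul_right, inner_smul_right, hx1, hy2]; ring
  · rw [inner_add_right, inner_smul_right, inner_smul_right, hx2, hy1]; ring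

/-- the key step: a tangent cone `C` with interior point which contains `uA`, no generic point in common
with `S`; then `u2` is nonnegative on `C`. -/
theorem nonneg_of {N : ℕ} (u : Fin N → E ι) (hu : ∀ k, u k ≠ 0) (I J : Set (Fin N)) (y0 z0 c u2 : E ι)
    (hy0 : ∀ k ∈ I, ⟪u k, y0⟫_ℝ ≤ 0) (hz0 : ∀ k ∈ I, ⟪u k, z0⟫_ℝ < 0) (hc : ∀ k ∈ I, ⟪u k, c⟫_ℝ ≤ 0)
    (hJ : ∀ k ∈ J, ⟪u k, y0⟫_ℝ < 0 ∨ (u k = u2 ∧ ⟪u k, y0⟫_ℝ ≤ 0))
    (hn : ¬ ∃ z, (∀ k, ⟪u k, z⟫_ℝ ≠ 0) ∧ (∀ k ∈ J, ⟪u k, z⟫_ℝ ≤ 0) ∧ (∀ k ∈ I, ⟪u k, z⟫_ℝ ≤ 0)) :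
    0 ≤ ⟪u2, c⟫_ℝ := by
  by_contra hneg
  push Not at hneg
  -- first perturbation
  obtain ⟨η, hη0, hη⟩ : ∃ η : ℝ, 0 < η ∧ ⟪u2, c + η • z0⟫_ℝ < 0 := by
    have hc1 : Tendsto (fun η : ℝ => ⟪u2, c + η • z0⟫_ℝ) (𝓝 0) (𝓝 ⟪u2, c⟫_ℝ) := by
      have : Continuous (fun η : ℝ => ⟪u2, c + η • z0⟫_ℝ) := by fun_prop
      simpa using this.tendsto 0
    have h1 : ∀ᶠ η : ℝ in 𝓝[>] 0, ⟪u2, c + η • z0⟫_ℝ < 0 :=
      (hc1.eventually (gt_mem_nhds hneg)).filter_mono nhdsWithin_le_nhds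
    obtain ⟨η, h2, h3⟩ := (h1.and (self_mem_nhdsWithin (s := Ioi (0:ℝ)))).exists
    exact ⟨η, h3, h2⟩
  set c' := c + η • z0 with hc'
  have hcI : ∀ k ∈ I, ⟪u k, c'⟫_ℝ < 0 := by
    intro k hk
    rw [hc', inner_add_right, inner_smul_right]
    have := mul_neg_of_pos_of_neg hη0 (hz0 k hk)
    have := hc k hk
    linarith
  obtain ⟨δ, hδ0, hδ⟩ : ∃ δ : ℝ, 0 < δ ∧ ∀ k ∈ J, ⟪u k, y0 + δ • c'⟫_ℝ < 0 := by
    have h1 : ∀ᶠ δ : ℝ in 𝓝[>] 0, ∀ k, k ∈ J → ⟪u k, y0 + δ • c'⟫_ℝ < 0 := by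
      rw [eventually_all]
      intro k
      by_cases hk : k ∈ J
      · rcases hJ k hk with h | ⟨h, h'⟩
        · have hc1 : Tendsto (fun δ : ℝ => ⟪u k, y0 + δ • c'⟫_ℝ) (𝓝 0) (𝓝 ⟪u k, y0⟫_ℝ) := by
            have : Continuous (fun δ : ℝ => ⟪u k, y0 + δ • c'⟫_ℝ) := by fun_prop
            simpa using this.tendsto 0
          exact ((hc1.eventually (gt_mem_nhds h)).filter_mono nhdsWithin_le_nhds).mono fun _ h _ => h
        · filter_upwards [self_mem_nhdsWithin (s := Ioi (0:ℝ))] with δ hδ _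
          rw [inner_add_right, inner_smul_right]
          have h3 : ⟪u k, c'⟫_ℝ < 0 := by rw [h]; exact hη
          have := mul_neg_of_pos_of_neg (show (0:ℝ) < δ from hδ) h3
          linarith
      · exact Eventually.of_forall fun _ h => absurd h hk
    obtain ⟨δ, h2, h3⟩ := (h1.and (self_mem_nhdsWithin (s := Ioi (0:ℝ)))).exists
    exact ⟨δ, h3, h2⟩
  have hU : IsOpen {z : E ι | (∀ k, k ∈ J → ⟪u k, z⟫_ℝ < 0) ∧ ∀ k, k ∈ I → ⟪u k, z⟫_ℝ < 0} := by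
    have h1 : ∀ I : Set (Fin N), IsOpen {z : E ι | ∀ k, k ∈ I → ⟪u k, z⟫_ℝ < 0} := by
      intro I
      have : {z : E ι | ∀ k, k ∈ I → ⟪u k, z⟫_ℝ < 0} = ⋂ k, {z : E ι | k ∈ I → ⟪u k, z⟫_ℝ < 0} := by
        ext z; simp
      rw [this]
      refine isOpen_iInter_of_finite fun k => ?_
      by_cases hk : k ∈ I
      · simp only [hk, true_imp_iff]
        exact isOpen_lt (by fun_prop) continuous_const
      · simp [hk]
    exact (h1 J).inter (h1 I)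
  obtain ⟨z, hz, hzg⟩ := open_gen u hu _ hU (y0 + δ • c') (by
    refine ⟨hδ, fun k hk => ?_⟩
    rw [inner_add_right, inner_smul_right]
    have := mul_neg_of_pos_of_neg hδ0 (hcI k hk)
    have := hy0 k hk
    linarith)
  exact hn ⟨z, hzg, fun k hk => (hz.1 k hk).le, fun k hk => (hz.2 k hk).le⟩

theorem main (hG1 : S_G1) : S_G2 := by
  classical
  intro ι _ Q hQ ν hν i p hsix
  obtain ⟨hp, j, hact, hli, s, hs, α, β, hα, hβ, hcs⟩ := hsix
  set u := Q.u with hudef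
  have hu : ∀ k, u k ≠ 0 := hQ.2.1
  obtain ⟨x0, hx0⟩ := hQ.2.2
  -- f
  obtain ⟨f, hf1, hf2⟩ := exists_two hli (-1) 0
  -- w
  obtain ⟨w, ⟨hw1, hw2, hw3⟩, hwg⟩ : ∃ w, (0 < ⟪u i, w⟫_ℝ ∧ 0 < ⟪u j, w⟫_ℝ ∧ 0 < ⟪α • u j - β • u i, w⟫_ℝ) ∧
      ∀ k, ⟪u k, w⟫_ℝ ≠ 0 := by
    obtain ⟨w0, hw01, hw02⟩ := exists_two hli 1 ((β + 1) / α)
    have hop : ∀ a : E ι, IsOpen {w : E ι | 0 < ⟪a, w⟫_ℝ} := fun a =>
      isOpen_lt continuous_const (by fun_prop)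
    have hopen : IsOpen {w : E ι | 0 < ⟪u i, w⟫_ℝ ∧ 0 < ⟪u j, w⟫_ℝ ∧ 0 < ⟪α • u j - β • u i, w⟫_ℝ} :=
      (hop _).inter ((hop _).inter (hop _))
    refine open_gen u hu _ hopen w0 ⟨?_, ?_, ?_⟩
    · rw [hw01]; norm_num
    · rw [hw02]; positivity
    · rw [inner_sub_left, inner_smul_left, inner_smul_left, hw01, hw02]
      simp only [conj_trivial]
      field_simp
      linarith
  -- g
  set W : Submodule ℝ (E ι) := (Submodule.span ℝ {u i, u j})ᗮ with hW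
  have hgex : ∃ g ∈ W, ∀ k, u k ∉ Submodule.span ℝ {u i, u j} → ⟪u k, g⟫_ℝ ≠ 0 := by
    obtain ⟨g, hg, hg'⟩ := Module.Dual.exists_forall_mem_ne_zero_of_forall_exists (K := ℝ) W
      (fun k : {k // u k ∉ Submodule.span ℝ {u i, u j}} => (innerₛₗ ℝ (u k) : Module.Dual ℝ (E ι)))
      (fun k => by
        by_contra hcon
        push Not at hcon
        apply k.2
        have h1 : u k.1 ∈ Wᗮ := by
          rw [Submodule.mem_orthogonal]
          intro v hv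
          have := hcon v hv
          rw [innerₛₗ_apply_apply] at this
          rw [real_inner_comm]; exact this
        rw [hW, Submodule.orthogonal_orthogonal] at h1
        exact h1)
    exact ⟨g, hg, fun k hk => by simpa [innerₛₗ_apply_apply] using hg' ⟨k, hk⟩⟩
  obtain ⟨g, hgW, hg⟩ := hgex
  have hgi : ⟪u i, g⟫_ℝ = 0 := (Submodule.mem_orthogonal _ _).1 hgW _ (Submodule.subset_span (by simp))
  have hgj : ⟪u j, g⟫_ℝ = 0 := (Submodule.mem_orthogonal _ _).1 hgW _ (Submodule.subset_span (by simp))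
  -- K
  obtain ⟨K, hK0, hK⟩ : ∃ K : ℝ, 0 < K ∧ ∀ k, ⟪u k, g⟫_ℝ ≠ 0 →
      |⟪u k, f⟫_ℝ| + |⟪u k, w⟫_ℝ| < K * |⟪u k, g⟫_ℝ| := by
    have h1 : ∀ᶠ K : ℝ in atTop, ∀ k, ⟪u k, g⟫_ℝ ≠ 0 →
        |⟪u k, f⟫_ℝ| + |⟪u k, w⟫_ℝ| < K * |⟪u k, g⟫_ℝ| := by
      rw [eventually_all]
      intro k
      by_cases hk : ⟪u k, g⟫_ℝ = 0
      · exact Eventually.of_forall fun _ h => absurd hk h
      · have := (tendsto_id (α := ℝ) (x := atTop)).atTop_mul_const (abs_pos.2 hk)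
        exact (this.eventually_gt_atTop _).mono fun K h _ => h
    obtain ⟨K, h2, h3⟩ := (h1.and (eventually_gt_atTop 0)).exists
    exact ⟨K, h3, h2⟩
  set y0 : E ι := K • g + f with hy0
  have hy0i : ⟪u i, y0⟫_ℝ = -1 := by
    rw [hy0, inner_add_right, inner_smul_right, hgi, hf1]; ring
  have hy0j : ⟪u j, y0⟫_ℝ = 0 := by
    rw [hy0, inner_add_right, inner_smul_right, hgj, hf2]; ring
  -- ε
  obtain ⟨ε, hε0, hε⟩ : ∃ ε : ℝ, 0 < ε ∧ ∀ k, ⟪u k, y0⟫_ℝ ≠ 0 → ε * |⟪u k, u j⟫_ℝ| < |⟪u k, y0⟫_ℝ| := by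
    have h1 : ∀ᶠ ε : ℝ in 𝓝[>] 0, ∀ k, ⟪u k, y0⟫_ℝ ≠ 0 → ε * |⟪u k, u j⟫_ℝ| < |⟪u k, y0⟫_ℝ| := by
      rw [eventually_all]
      intro k
      by_cases hk : ⟪u k, y0⟫_ℝ = 0
      · exact Eventually.of_forall fun _ h => absurd hk h
      · have hc1 : Tendsto (fun ε : ℝ => ε * |⟪u k, u j⟫_ℝ|) (𝓝 0) (𝓝 0) := by
          have : Continuous (fun ε : ℝ => ε * |⟪u k, u j⟫_ℝ|) := by fun_prop
          simpa using this.tendsto 0
        exact ((hc1.eventually (gt_mem_nhds (abs_pos.2 hk))).filter_mono nhdsWithin_le_nhds).mono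
          fun _ h _ => h
    obtain ⟨ε, h2, h3⟩ := (h1.and (self_mem_nhdsWithin (s := Ioi (0:ℝ)))).exists
    exact ⟨ε, h3, h2⟩
  set uA : E ι := y0 + ε • u j with huA
  set uB : E ι := K • g + w with huB
  have huj : u j ≠ 0 := hu j
  have hjj : 0 < ⟪u j, u j⟫_ℝ := real_inner_self_pos.2 huj
  -- decomposition of vectors in the span
  have hspan : ∀ k, u k ∈ Submodule.span ℝ {u i, u j} → ∃ a b : ℝ, u k = a • u i + b • u j := by
    intro k hk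
    obtain ⟨a, b, h⟩ := Submodule.mem_span_pair.1 hk
    exact ⟨a, b, h.symm⟩
  have hAk : ∀ k, ⟪u k, uA⟫_ℝ = ⟪u k, y0⟫_ℝ + ε * ⟪u k, u j⟫_ℝ := fun k => by
    rw [huA, inner_add_right, inner_smul_right]
  have hy0k : ∀ k, ⟪u k, y0⟫_ℝ = K * ⟪u k, g⟫_ℝ + ⟪u k, f⟫_ℝ := fun k => by
    rw [hy0, inner_add_right, inner_smul_right]
  have hBk : ∀ k, ⟪u k, uB⟫_ℝ = K * ⟪u k, g⟫_ℝ + ⟪u k, w⟫_ℝ := fun k => by
    rw [huB, inner_add_right, inner_smul_right]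
  have habs : ∀ a : ℝ, |K * a| = K * |a| := fun a => by rw [abs_mul, abs_of_pos hK0]
  have hgenA : ∀ k, ⟪u k, uA⟫_ℝ ≠ 0 := by
    intro k
    rw [hAk]
    by_cases hk : ⟪u k, y0⟫_ℝ = 0
    · by_cases hs : u k ∈ Submodule.span ℝ {u i, u j}
      · obtain ⟨a, b, hab⟩ := hspan k hs
        have h1 : ⟪u k, y0⟫_ℝ = -a := by
          rw [hab, inner_add_left, inner_smul_left, inner_smul_left, hy0i, hy0j]; simp
        have ha : a = 0 := by linarith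
        have hb : b ≠ 0 := by
          rintro rfl
          apply hu k
          rw [hab, ha]; simp
        rw [hk, zero_add, hab, ha, zero_smul, zero_add, inner_smul_left]
        simp only [conj_trivial]
        have := mul_ne_zero hε0.ne' (mul_ne_zero hb hjj.ne')
        exact this
      · exfalso
        have h1 := hK k (hg k hs)
        rw [hy0k] at hk
        have h2 : K * ⟪u k, g⟫_ℝ = -⟪u k, f⟫_ℝ := by linarith
        have h3 : K * |⟪u k, g⟫_ℝ| = |⟪u k, f⟫_ℝ| := by rw [← habs, h2, abs_neg]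
        have := abs_nonneg ⟪u k, w⟫_ℝ
        linarith
    · intro h0
      have h1 := hε k hk
      have h2 : ⟪u k, y0⟫_ℝ = -(ε * ⟪u k, u j⟫_ℝ) := by linarith
      have h3 : |⟪u k, y0⟫_ℝ| = ε * |⟪u k, u j⟫_ℝ| := by rw [h2, abs_neg, abs_mul, abs_of_pos hε0]
      linarith
  have hspang : ∀ k, u k ∈ Submodule.span ℝ {u i, u j} → ⟪u k, g⟫_ℝ = 0 := fun k hk =>
    (Submodule.mem_orthogonal _ _).1 hgW _ hk
  have hgenB : ∀ k, ⟪u k, uB⟫_ℝ ≠ 0 := by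
    intro k
    rw [hBk]
    by_cases hs : u k ∈ Submodule.span ℝ {u i, u j}
    · rw [hspang k hs, mul_zero, zero_add]; exact hwg k
    · intro h0
      have h1 := hK k (hg k hs)
      have h2 : K * ⟪u k, g⟫_ℝ = -⟪u k, w⟫_ℝ := by linarith
      have h3 : K * |⟪u k, g⟫_ℝ| = |⟪u k, w⟫_ℝ| := by rw [← habs, h2, abs_neg]
      have := abs_nonneg ⟪u k, f⟫_ℝ
      linarith
  -- the claim
  have hclaim : ∀ t, p - t ∈ Q.body → uA ∈ Q.cone (p - t) → t ∉ NN Q p → uB ∈ Q.cone (p - t) := by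
    intro t ht hA hnn
    set y := p - t with hy
    have ht0 : t ≠ 0 := by
      rintro rfl
      have hyp : y = p := by rw [hy, sub_zero]
      rw [hyp] at hA
      have h1 : ⟪u j, uA⟫_ℝ ≤ 0 := hA j (by rw [hact]; simp)
      rw [hAk, hy0j, zero_add] at h1
      have := mul_pos hε0 hjj
      linarith
    have hn : ¬ ∃ z, (∀ k, ⟪u k, z⟫_ℝ ≠ 0) ∧ (∀ k ∈ Q.act p, ⟪u k, z⟫_ℝ ≤ 0) ∧
        (∀ k ∈ Q.act y, ⟪u k, z⟫_ℝ ≤ 0) := by
      rintro ⟨z, h1, h2, h3⟩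
      exact hnn ⟨ht0, ht, z, h1, h2, h3⟩
    have hy0C : ∀ k ∈ Q.act y, ⟪u k, y0⟫_ℝ ≤ 0 := by
      intro k hk
      by_contra hpos
      push Not at hpos
      have h1 := hε k hpos.ne'
      have h2 : ⟪u k, uA⟫_ℝ ≤ 0 := hA k hk
      rw [hAk] at h2
      rw [abs_of_pos hpos] at h1
      have h3 : -(ε * |⟪u k, u j⟫_ℝ|) ≤ ε * ⟪u k, u j⟫_ℝ := by
        have := mul_le_mul_of_nonneg_left (neg_abs_le ⟪u k, u j⟫_ℝ) hε0.le
        linarith
      linarith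
    have hz0 : ∀ k ∈ Q.act y, ⟪u k, x0 - y⟫_ℝ < 0 := by
      intro k hk
      rw [inner_sub_right]
      have h1 : ⟪u k, y⟫_ℝ = Q.h k := hk
      have := hx0 k
      rw [h1]; linarith
    -- (1)
    have hC : ∀ c, (∀ k ∈ Q.act y, ⟪u k, c⟫_ℝ ≤ 0) → 0 ≤ ⟪u j, c⟫_ℝ := by
      intro c hc
      refine nonneg_of u hu (Q.act y) (Q.act p) y0 (x0 - y) c (u j) hy0C hz0 hc ?_ hn
      intro k hk
      rw [hact] at hk
      rcases hk with rfl | hk
      · left; rw [hy0i]; norm_num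
      · right
        rw [mem_singleton_iff] at hk
        rw [hk]
        exact ⟨rfl, hy0j.le⟩
    -- (2)
    have hmin : ∀ x ∈ Q.body, ⟪u j, y⟫_ℝ ≤ ⟪u j, x⟫_ℝ := by
      intro x hx
      have := hC (x - y) (fun k hk => by
        rw [inner_sub_right]
        have h1 : ⟪u k, y⟫_ℝ = Q.h k := hk
        have h2 : ⟪u k, x⟫_ℝ ≤ Q.h k := hx k
        rw [h1]; linarith)
      rw [inner_sub_right] at this
      linarith
    have hbs : ∀ x ∈ Q.body, x - s ∈ Q.cone s := by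
      intro x hx k hk
      rw [inner_sub_right]
      have h1 : ⟪u k, s⟫_ℝ = Q.h k := hk
      have h2 : ⟪u k, x⟫_ℝ ≤ Q.h k := hx k
      change ⟪u k, x⟫_ℝ - ⟪u k, s⟫_ℝ ≤ 0
      rw [h1]; linarith
    -- (3)
    intro k hk
    change ⟪u k, uB⟫_ℝ ≤ 0
    rw [hBk]
    by_cases hsp : u k ∈ Submodule.span ℝ {u i, u j}
    · rw [hspang k hsp, mul_zero, zero_add]
      obtain ⟨a, b, hab⟩ := hspan k hsp
      have h1 : ⟪u k, y0⟫_ℝ = -a := by
        rw [hab, inner_add_left, inner_smul_left, inner_smul_left, hy0i, hy0j]; simp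
      have ha : 0 ≤ a := by have := hy0C k hk; linarith
      rcases ha.eq_or_lt with ha | ha
      · -- a = 0
        have h2 : ⟪u k, x0 - y⟫_ℝ = b * ⟪u j, x0 - y⟫_ℝ := by
          rw [hab, ← ha, zero_smul, zero_add, inner_smul_left]; simp
        have h3 := hz0 k hk
        have h4 := hC (x0 - y) (fun k hk => (hz0 k hk).le)
        have hb : b < 0 := by
          by_contra hb
          push Not at hb
          have := mul_nonneg hb h4
          linarith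
        have h5 : ⟪u k, w⟫_ℝ = b * ⟪u j, w⟫_ℝ := by
          rw [hab, ← ha, zero_smul, zero_add, inner_smul_left]; simp
        rw [h5]
        exact (mul_neg_of_neg_of_pos hb hw2).le
      · -- a > 0
        have h2 : y - s ∈ Q.cone s := hbs y ht
        rw [hcs] at h2
        obtain ⟨h3, h4⟩ := h2
        have h5 : ⟪u j, y⟫_ℝ ≤ ⟪u j, s⟫_ℝ := hmin s hs
        change 0 ≤ ⟪u j, y - s⟫_ℝ at h3
        change 0 ≤ ⟪α • u j - β • u i, y - s⟫_ℝ at h4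
        rw [inner_sub_right (u j) y s] at h3
        have h6 : ⟪u j, y⟫_ℝ = ⟪u j, s⟫_ℝ := by linarith
        rw [inner_sub_left, inner_smul_left, inner_smul_left, inner_sub_right (u j) y s,
          inner_sub_right (u i) y s, h6] at h4
        simp only [conj_trivial, sub_self, mul_zero, zero_sub] at h4
        have h7 : ⟪u i, y⟫_ℝ ≤ ⟪u i, s⟫_ℝ := by
          by_contra h8
          push Not at h8
          have := mul_pos hβ (sub_pos.2 h8)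
          linarith
        have h8 : ⟪u k, y⟫_ℝ = Q.h k := hk
        have h9 : ⟪u k, s⟫_ℝ ≤ Q.h k := hs k
        have h10 : ⟪u k, y⟫_ℝ = a * ⟪u i, y⟫_ℝ + b * ⟪u j, y⟫_ℝ := by
          rw [hab, inner_add_left, inner_smul_left, inner_smul_left]; simp
        have h11 : ⟪u k, s⟫_ℝ = a * ⟪u i, s⟫_ℝ + b * ⟪u j, s⟫_ℝ := by
          rw [hab, inner_add_left, inner_smul_left, inner_smul_left]; simp
        have h12 : ⟪u k, s⟫_ℝ = Q.h k := by
          have := mul_le_mul_of_nonneg_left h7 ha.le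
          rw [h6] at h10
          linarith
        have hwc : w ∈ Q.cone s := by
          rw [hcs]
          exact ⟨hw2.le, hw3.le⟩
        exact hwc k h12
    · have h1 := hK k (hg k hsp)
      have h2 := hy0C k hk
      rw [hy0k] at h2
      have hgneg : ⟪u k, g⟫_ℝ < 0 := by
        by_contra h3
        push Not at h3
        rw [abs_of_nonneg h3] at h1
        have := neg_abs_le ⟪u k, f⟫_ℝ
        have := abs_nonneg ⟪u k, w⟫_ℝ
        linarith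
      rw [abs_of_neg hgneg] at h1
      have := le_abs_self ⟪u k, w⟫_ℝ
      have := abs_nonneg ⟪u k, f⟫_ℝ
      linarith
  -- measures
  have hA1 := hG1 ι Q hQ ν hν.1 hν.2.1 p uA hgenA
  have hB1 := hG1 ι Q hQ ν hν.1 hν.2.1 p uB hgenB
  have hN := NN_null hG1 Q hQ ν hν p hp
  set A := {t | p - t ∈ Q.body ∧ uA ∈ Q.cone (p - t)} with hAdef
  set J := {t | p - t ∈ Q.body ∧ Q.cone (p - t) = {z | 0 ≤ ⟪Q.u i, z⟫_ℝ}} with hJdef
  have hJm : MeasurableSet J := meas_act Q p (fun I => Q.coneI I = {z | 0 ≤ ⟪Q.u i, z⟫_ℝ})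
  have hdis : Disjoint A J := by
    rw [Set.disjoint_left]
    rintro t ⟨-, h1⟩ ⟨-, h2⟩
    rw [h2] at h1
    change 0 ≤ ⟪u i, uA⟫_ℝ at h1
    have h3 : ⟪u i, y0⟫_ℝ ≠ 0 := by rw [hy0i]; norm_num
    have h4 := hε i h3
    rw [hy0i] at h4
    rw [hAk, hy0i] at h1
    have h5 : ε * ⟪u i, u j⟫_ℝ ≤ ε * |⟪u i, u j⟫_ℝ| := mul_le_mul_of_nonneg_left (le_abs_self _) hε0.le
    norm_num at h4
    linarith
  have hsub : A ∪ J ⊆ {t | p - t ∈ Q.body ∧ uB ∈ Q.cone (p - t)} ∪ NN Q p := by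
    rintro t (⟨h1, h2⟩ | ⟨h1, h2⟩)
    · by_cases hn : t ∈ NN Q p
      · exact Or.inr hn
      · exact Or.inl ⟨h1, hclaim t h1 h2 hn⟩
    · left
      refine ⟨h1, ?_⟩
      rw [h2]
      change 0 ≤ ⟪u i, uB⟫_ℝ
      rw [hBk, hgi, mul_zero, zero_add]
      exact hw1.le
  have h1 : ν A + ν J ≤ 1 := by
    rw [← measure_union hdis hJm]
    calc ν (A ∪ J) ≤ ν ({t | p - t ∈ Q.body ∧ uB ∈ Q.cone (p - t)} ∪ NN Q p) := measure_mono hsub
      _ ≤ ν {t | p - t ∈ Q.body ∧ uB ∈ Q.cone (p - t)} + ν (NN Q p) := measure_union_le _ _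
      _ = 1 := by rw [hB1, hN, add_zero]
  rw [hA1] at h1
  have h2 : (1 : ℝ≥0∞) + ν J ≤ 1 + 0 := by simpa using h1
  have h3 := (ENNReal.add_le_add_iff_left (by simp)).1 h2
  exact le_antisymm h3 (by simp)

end Pool.Agent.Helper67.SPX.G2
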