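import Pool.Agent.Helper64.SPX.Spec

set_option autoImplicit false

open MeasureTheory Filter Topology Set
open scoped InnerProductSpace ENNReal

namespace Pool.Agent.Helper67.SPX

open Pool.Agent.Helper64.SPX

variable {ι : Type} [Fintype ι]

/-- generic direction for finitely many nonzero vectors -/
theorem exists_gen {N : ℕ} (u : Fin N → E ι) (hu : ∀ k, u k ≠ 0) : ∃ v : E ι, ∀ k, ⟪u k, v⟫_ℝ ≠ 0 := by
  obtain ⟨v, -, hv⟩ := Module.Dual.exists_forall_mem_ne_zero_of_forall_exists (K := ℝ) (⊤ : Submodule ℝ (E ι))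
    (fun k : Fin N => (innerₛₗ ℝ (u k) : Module.Dual ℝ (E ι))) (fun k => ⟨u k, trivial, by
      simpa [innerₛₗ_apply_apply] using hu k⟩)
  exact ⟨v, fun k => by simpa [innerₛₗ_apply_apply] using hv k⟩

/-- perturbation of a point of an open set to a generic one -/
theorem open_gen {N : ℕ} (u : Fin N → E ι) (hu : ∀ k, u k ≠ 0) (U : Set (E ι)) (hU : IsOpen U) (z : E ι)
    (hz : z ∈ U) : ∃ z' ∈ U, ∀ k, ⟪u k, z'⟫_ℝ ≠ 0 := by
  obtain ⟨v, hv⟩ := exists_gen u hu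
  have h1 : ∀ᶠ τ : ℝ in 𝓝[≠] 0, z + τ • v ∈ U := by
    have hc : Tendsto (fun τ : ℝ => z + τ • v) (𝓝 0) (𝓝 z) := by
      have : Continuous (fun τ : ℝ => z + τ • v) := by fun_prop
      simpa using this.tendsto 0
    exact (hc.eventually (hU.mem_nhds hz)).filter_mono nhdsWithin_le_nhds
  have h2 : ∀ᶠ τ : ℝ in 𝓝[≠] 0, ∀ k, ⟪u k, z + τ • v⟫_ℝ ≠ 0 := by
    rw [eventually_all]
    intro k
    by_cases hk : ⟪u k, z⟫_ℝ = 0
    · filter_upwards [self_mem_nhdsWithin] with τ hτ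
      rw [inner_add_right, inner_smul_right, hk, zero_add]
      exact mul_ne_zero hτ (hv k)
    · have hc : Tendsto (fun τ : ℝ => ⟪u k, z + τ • v⟫_ℝ) (𝓝 0) (𝓝 ⟪u k, z⟫_ℝ) := by
        have : Continuous (fun τ : ℝ => ⟪u k, z + τ • v⟫_ℝ) := by fun_prop
        simpa using this.tendsto 0
      exact (hc.eventually_ne hk).filter_mono nhdsWithin_le_nhds
  obtain ⟨τ, hτ⟩ := (h1.and h2).exists
  exact ⟨_, hτ.1, hτ.2⟩

/-- sets described by the active inequalities are measurable -/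
theorem meas_act (Q : HP ι) (p : E ι) (Φ : Set (Fin Q.N) → Prop) :
    MeasurableSet {t : E ι | p - t ∈ Q.body ∧ Φ (Q.act (p - t))} := by
  have hcont : ∀ k, Continuous (fun t : E ι => ⟪Q.u k, p - t⟫_ℝ) := fun k => by fun_prop
  have h1 : MeasurableSet {t : E ι | p - t ∈ Q.body} := by
    have : {t : E ι | p - t ∈ Q.body} = ⋂ k, {t | ⟪Q.u k, p - t⟫_ℝ ≤ Q.h k} := by
      ext t; simp [HP.body]
    rw [this]
    exact MeasurableSet.iInter fun k => measurableSet_le (hcont k).measurable measurable_const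
  have h2 : ∀ I : Set (Fin Q.N), MeasurableSet {t : E ι | Q.act (p - t) = I} := by
    intro I
    have : {t : E ι | Q.act (p - t) = I} = ⋂ k, {t | ⟪Q.u k, p - t⟫_ℝ = Q.h k ↔ k ∈ I} := by
      ext t
      simp only [HP.act, mem_setOf_eq, mem_iInter, Set.ext_iff]
    rw [this]
    refine MeasurableSet.iInter fun k => ?_
    have h3 : MeasurableSet {t : E ι | ⟪Q.u k, p - t⟫_ℝ = Q.h k} :=
      measurableSet_eq_fun (hcont k).measurable measurable_const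
    by_cases hk : k ∈ I
    · simpa [hk] using h3
    · have h4 : {t : E ι | ⟪Q.u k, p - t⟫_ℝ = Q.h k ↔ k ∈ I} = {t : E ι | ⟪Q.u k, p - t⟫_ℝ = Q.h k}ᶜ := by
        ext t
        simp [hk]
      rw [h4]
      exact h3.compl
  have h4 : {t : E ι | p - t ∈ Q.body ∧ Φ (Q.act (p - t))} =
      ⋃ I : Set (Fin Q.N), ({t : E ι | p - t ∈ Q.body} ∩ {t : E ι | Q.act (p - t) = I} ∩ {_t | Φ I}) := by
    ext t
    simp only [mem_setOf_eq, mem_iUnion, mem_inter_iff]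
    constructor
    · rintro ⟨h, h'⟩
      exact ⟨_, ⟨h, rfl⟩, h'⟩
    · rintro ⟨I, ⟨h, rfl⟩, h'⟩
      exact ⟨h, h'⟩
  rw [h4]
  exact MeasurableSet.iUnion fun I => (h1.inter (h2 I)).inter (MeasurableSet.const _)

/-- the null set -/
def NN (Q : HP ι) (p : E ι) : Set (E ι) :=
  {t | t ≠ 0 ∧ p - t ∈ Q.body ∧ ∃ z, (∀ k, ⟪Q.u k, z⟫_ℝ ≠ 0) ∧ z ∈ Q.cone p ∧ z ∈ Q.cone (p - t)}

theorem NN_null (hG1 : S_G1) (Q : HP ι) (hQ : Q.Good) (ν : Measure (E ι)) (hν : WTile Q.body ν) (p : E ι)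
    (hp : p ∈ Q.body) : ν (NN Q p) = 0 := by
  have h : NN Q p ⊆ ⋃ I : Set (Fin Q.N), {t | t ≠ 0 ∧ p - t ∈ Q.body ∧ Q.act (p - t) = I ∧
      ∃ z, (∀ k, ⟪Q.u k, z⟫_ℝ ≠ 0) ∧ z ∈ Q.cone p ∧ z ∈ Q.coneI I} := by
    rintro t ⟨h1, h2, z, h3, h4, h5⟩
    exact mem_iUnion.2 ⟨Q.act (p - t), h1, h2, rfl, z, h3, h4, h5⟩
  refine measure_mono_null h (measure_iUnion_null fun I => ?_)
  by_cases hI : ∃ z, (∀ k, ⟪Q.u k, z⟫_ℝ ≠ 0) ∧ z ∈ Q.cone p ∧ z ∈ Q.coneI I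
  · obtain ⟨z, h3, h4, h5⟩ := hI
    have h6 := hG1 ι Q hQ ν hν.1 hν.2.1 p z h3
    have h7 : ν ({t | p - t ∈ Q.body ∧ z ∈ Q.cone (p - t)} \ {0}) = 0 := by
      have h8 := measure_diff_add_inter (μ := ν) {t | p - t ∈ Q.body ∧ z ∈ Q.cone (p - t)}
        (measurableSet_singleton (0 : E ι))
      have h9 : {t : E ι | p - t ∈ Q.body ∧ z ∈ Q.cone (p - t)} ∩ {0} = {0} := by
        refine inter_eq_right.2 ?_
        rintro t rfl
        simpa using ⟨hp, h4⟩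
      rw [h9, h6] at h8
      have h10 := hν.2.2
      by_contra hne
      have : 1 < ν ({t | p - t ∈ Q.body ∧ z ∈ Q.cone (p - t)} \ {0}) + ν {0} := by
        calc (1 : ℝ≥0∞) = 0 + 1 := by simp
          _ < ν ({t | p - t ∈ Q.body ∧ z ∈ Q.cone (p - t)} \ {0}) + 1 := by
            refine ENNReal.add_lt_add_right (by simp) (pos_iff_ne_zero.2 hne)
          _ ≤ _ := by gcongr
      exact absurd h8 this.ne'
    refine measure_mono_null ?_ h7
    rintro t ⟨h1, h2, rfl, -⟩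
    exact ⟨⟨h2, h5⟩, h1⟩
  · have : {t | t ≠ 0 ∧ p - t ∈ Q.body ∧ Q.act (p - t) = I ∧
      ∃ z, (∀ k, ⟪Q.u k, z⟫_ℝ ≠ 0) ∧ z ∈ Q.cone p ∧ z ∈ Q.coneI I} = ∅ := by
      ext t; simp only [mem_setOf_eq, mem_empty_iff_false, iff_false]
      rintro ⟨-, -, -, h⟩
      exact hI h
    rw [this]; simp

end Pool.Agent.Helper67.SPX
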